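import Pool.Agent.Run7.h870.TF.Ful

/-!
# Restriction of automorphisms and finite extensions which cover a lattice modulo four
-/

set_option autoImplicit false
set_option linter.all false

open Polynomial NumberField
open scoped Classical

namespace Run7.h870.TF

open Run7.h870.TE (pd pd_map)

section res

variable {L L' F F' : Type} [Field L] [Field L'] [Field F] [Field F'] [Algebra L F] [Algebra L L']
  [Algebra L' F'] [Algebra L F'] [IsScalarTower L L' F']

/-- the restriction -/
noncomputable def rs (e : F' ≃ₐ[L] F) : (F' ≃ₐ[L'] F') →* (F ≃ₐ[L] F) where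
  toFun s := e.symm.trans ((s.restrictScalars L).trans e)
  map_one' := by
    ext x
    exact e.apply_symm_apply x
  map_mul' s t := by
    ext x
    show e ((s * t) (e.symm x)) = e (s (e.symm (e (t (e.symm x)))))
    rw [e.symm_apply_apply]
    rfl

theorem rs_apply (e : F' ≃ₐ[L] F) (s : F' ≃ₐ[L'] F') (x : F) : rs e s x = e (s (e.symm x)) := rfl

/-- automorphisms which fix generators come from automorphisms over the extension -/
theorem exists_lift (e : F' ≃ₐ[L] F) {n : ℕ} {α : Fin n → L'}
    (hadj : Algebra.adjoin L (Set.range α) = ⊤) (s : F ≃ₐ[L] F)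
    (hs : ∀ i, s (e (algebraMap L' F' (α i))) = e (algebraMap L' F' (α i))) :
    ∃ s' : F' ≃ₐ[L'] F', ∀ x, e (s' x) = s (e x) := by
  let φ : F' ≃ₐ[L] F' := e.trans (s.trans e.symm)
  have hφ : ∀ x, e (φ x) = s (e x) := fun x => e.apply_symm_apply _
  have key : ∀ x : L', φ (algebraMap L' F' x) = algebraMap L' F' x := by
    have h1 : Algebra.adjoin L (Set.range α) ≤ AlgHom.equalizer
        (φ.toAlgHom.comp (IsScalarTower.toAlgHom L L' F')) (IsScalarTower.toAlgHom L L' F') := by
      rw [Algebra.adjoin_le_iff]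
      rintro _ ⟨i, rfl⟩
      show φ (algebraMap L' F' (α i)) = algebraMap L' F' (α i)
      apply e.injective
      rw [hφ, hs]
    intro x
    have h2 : x ∈ Algebra.adjoin L (Set.range α) := by rw [hadj]; trivial
    exact h1 h2
  exact ⟨AlgEquiv.ofRingEquiv (f := φ.toRingEquiv) key, fun x => hφ x⟩

/-- the restriction is continuous -/
theorem rs_cont (e : F' ≃ₐ[L] F) [Algebra.IsAlgebraic L' F'] : Continuous (rs (L' := L') e) := by
  refine continuous_of_continuousAt_one (rs (L' := L') e) ?_
  rw [ContinuousAt, map_one]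
  intro A hA
  obtain ⟨E, hE, hEA⟩ := (krullTopology_mem_nhds_one_iff L F A).1 hA
  haveI : FiniteDimensional L E := hE
  haveI : Algebra.FiniteType L E := inferInstance
  obtain ⟨S, hS⟩ := IntermediateField.essFiniteType_iff.1 (inferInstance : Algebra.EssFiniteType L E)
  rw [Filter.mem_map, krullTopology_mem_nhds_one_iff]
  have hfin : ((fun x => e.symm x) '' (S : Set F)).Finite := (S.finite_toSet).image _
  refine ⟨IntermediateField.adjoin L' ((fun x => e.symm x) '' (S : Set F)), ?_, ?_⟩
  · haveI : Finite ((fun x => e.symm x) '' (S : Set F)) := hfin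
    exact IntermediateField.finiteDimensional_adjoin fun x _ => Algebra.IsIntegral.isIntegral x
  · intro s hs
    apply hEA
    rw [SetLike.mem_coe, IntermediateField.mem_fixingSubgroup_iff] at hs ⊢
    intro x hx
    rw [← hS] at hx
    have h1 : IntermediateField.adjoin L (S : Set F) ≤
        IntermediateField.fixedField (Subgroup.zpowers (rs (L' := L') e s)) := by
      rw [IntermediateField.adjoin_le_iff]
      intro z hz
      rw [SetLike.mem_coe, IntermediateField.mem_fixedField_iff]
      intro f hf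
      have h2 : rs (L' := L') e s z = z := by
        rw [rs_apply, hs _ (IntermediateField.subset_adjoin _ _ ⟨z, hz, rfl⟩)]
        exact e.apply_symm_apply z
      obtain ⟨k, rfl⟩ := Subgroup.mem_zpowers_iff.1 hf
      have h3 : (rs (L' := L') e s) ∈ MulAction.stabilizer (F ≃ₐ[L] F) z := h2
      exact (MulAction.stabilizer (F ≃ₐ[L] F) z).zpow_mem h3 k
    have h4 := h1 hx
    rw [IntermediateField.mem_fixedField_iff] at h4
    exact h4 _ (Subgroup.mem_zpowers _)

end res

section cov

/-- regular polynomials: the conclusion -/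
theorem core {K L Ω F : Type} [Field K] [NumberField K] [Field L] [NumberField L] [Algebra K L]
    [Field Ω] [NumberField Ω] [Algebra K Ω] [Field F] [Algebra Ω F] [Algebra L F] [Algebra K F]
    [IsScalarTower K L F] [IsScalarTower K Ω F] [IsAlgClosed F] [Algebra.IsAlgebraic L F]
    (hL : ∀ x : L, ∃ z : Ω, algebraMap Ω F z = algebraMap L F x) {n : ℕ} (hn : 3 ≤ n)
    {y : Fin n → 𝓞 K} (hy : Reg K Ω y) {L' F' : Type} [Field L'] [Algebra L L'] [Field F']
    [Algebra L' F'] [Algebra L F'] [IsScalarTower L L' F'] (e : F' ≃ₐ[L] F) {α : Fin n → L'}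
    (hadj : Algebra.adjoin L (Set.range α) = ⊤)
    (hα : (Pool.Agent.N197.Htj.mP fun j => algebraMap L L' (algebraMap K L
      (algebraMap (𝓞 K) K (y j)))) = ∏ i, (X - C (α i))) :
    Function.Injective α ∧ ∀ P : Finset {p : Fin n × Fin n // p.1 < p.2}, P.Nonempty →
      ∀ δ : F', δ ^ 2 = algebraMap L' F' (pd P α) → ∃ s' : F' ≃ₐ[L'] F',
        (∀ z : Ω, rs e s' (algebraMap Ω F z) = algebraMap Ω F z) ∧ s' δ ≠ δ := by
  haveI : Algebra.IsAlgebraic Ω F := by
    haveI : CharZero F := charZero_of_injective_algebraMap (algebraMap Ω F).injective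
    haveI : IsScalarTower ℚ L F := IsScalarTower.rat
    haveI : IsScalarTower ℚ Ω F := IsScalarTower.rat
    haveI : Algebra.IsAlgebraic ℚ F := Algebra.IsAlgebraic.trans ℚ L F
    exact Algebra.IsAlgebraic.tower_top (K := ℚ) Ω
  let β : Fin n → F := fun i => e (algebraMap L' F' (α i))
  have hβ : ((Pool.Agent.N197.Htj.mP fun j => algebraMap K Ω (algebraMap (𝓞 K) K (y j))).map
      (algebraMap Ω F)) = ∏ i, (X - C (β i)) := by
    have h1 := congrArg (Polynomial.map ((e : F' →+* F).comp (algebraMap L' F'))) hα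
    rw [Pool.Agent.N197.Htj.mP_map, Polynomial.map_prod] at h1
    rw [Pool.Agent.N197.Htj.mP_map]
    simp only [Polynomial.map_sub, map_X, map_C] at h1
    refine Eq.trans ?_ h1
    congr 1
    funext j
    show algebraMap Ω F (algebraMap K Ω _) = e (algebraMap L' F' (algebraMap L L' (algebraMap K L _)))
    rw [← IsScalarTower.algebraMap_apply K Ω F, ← IsScalarTower.algebraMap_apply L L' F',
      e.commutes, ← IsScalarTower.algebraMap_apply K L F]
  obtain ⟨hinj, hmove⟩ := reg_move hn hy F hβ
  refine ⟨fun i j hij => hinj (by show e _ = e _; rw [hij]), fun P hP δ hδ => ?_⟩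
  obtain ⟨s, hs, hsδ⟩ := hmove P hP (e δ) (by
    rw [← map_pow, hδ]
    show ((e : F' →+* F).comp (algebraMap L' F')) (pd P α) = _
    rw [pd_map]
    rfl)
  let sL : F ≃ₐ[L] F := AlgEquiv.ofRingEquiv (f := s.toRingEquiv) (fun x => by
    obtain ⟨z, hz⟩ := hL x
    rw [← hz]
    exact s.commutes z)
  obtain ⟨s', hs'⟩ := exists_lift e hadj sL (fun i => hs i)
  refine ⟨s', fun z => ?_, fun h => hsδ ?_⟩
  · rw [rs_apply, hs', e.apply_symm_apply]
    exact s.commutes z
  · have h1 := hs' δ
    rw [h] at h1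
    exact h1.symm

/-- finite extensions which cover a neighbourhood of one in the Galois group -/
theorem exists_fin {K L F Kb : Type} [Field K] [Field L] [Algebra K L] [FiniteDimensional K L]
    [Field F] [Algebra L F] [Algebra K F] [IsScalarTower K L F] [IsAlgClosed F]
    [Algebra.IsAlgebraic L F] [Field Kb] [Algebra K Kb] [IsAlgClosed Kb] [Algebra.IsAlgebraic K Kb]
    {A : Set (F ≃ₐ[L] F)} (hA : A ∈ nhds (1 : F ≃ₐ[L] F)) (m : ℕ) (hm : 0 < m) :
    ∃ (Ω : IntermediateField K Kb) (ε : Kb →ₐ[K] F), FiniteDimensional K Ω ∧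
      (∀ x : L, ∃ z ∈ Ω, ε z = algebraMap L F x) ∧
      ∀ s : F ≃ₐ[L] F, (∀ z ∈ Ω, s (ε z) = ε z) → (∀ ζ : F, ζ ^ m = 1 → s ζ = ζ) ∧ s ∈ A := by
  obtain ⟨E, hE, hEA⟩ := (krullTopology_mem_nhds_one_iff L F A).1 hA
  haveI : Algebra.IsAlgebraic K F := Algebra.IsAlgebraic.trans K L F
  haveI : IsAlgClosure K F := ⟨inferInstance, inferInstance⟩
  haveI : IsAlgClosure K Kb := ⟨inferInstance, inferInstance⟩
  let ε : Kb ≃ₐ[K] F := IsAlgClosure.equiv K Kb F
  have hroots : {ζ : F | ζ ^ m = 1}.Finite := by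
    refine Set.Finite.subset ((X ^ m - 1 : F[X]).roots.toFinset.finite_toSet) fun ζ hζ => ?_
    rw [Finset.mem_coe, Multiset.mem_toFinset, mem_roots (show (X ^ m - 1 : F[X]) ≠ 0 from C_1 (R := F) ▸ X_pow_sub_C_ne_zero hm (1 : F)), IsRoot.def,
      eval_sub, eval_pow, eval_X, eval_one, hζ, sub_self]
  let E' : IntermediateField L F := E ⊔ IntermediateField.adjoin L {ζ : F | ζ ^ m = 1}
  haveI hE1 : FiniteDimensional L E := hE
  haveI hE2 : FiniteDimensional L (IntermediateField.adjoin L {ζ : F | ζ ^ m = 1}) := by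
    haveI : Finite {ζ : F | ζ ^ m = 1} := hroots
    exact IntermediateField.finiteDimensional_adjoin fun x _ => Algebra.IsIntegral.isIntegral x
  haveI hE3 : FiniteDimensional L E' := IntermediateField.finiteDimensional_sup _ _
  haveI hE4 : FiniteDimensional K E' := FiniteDimensional.trans K L E'
  refine ⟨(E'.restrictScalars K).comap ε.toAlgHom, ε.toAlgHom, ?_, fun x => ?_, fun s hs => ?_⟩
  · let φ : (E'.restrictScalars K).comap ε.toAlgHom →ₗ[K] E'.restrictScalars K :=
      LinearMap.codRestrict (E'.restrictScalars K).toSubmodule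
        (ε.toAlgHom.toLinearMap.comp ((E'.restrictScalars K).comap ε.toAlgHom).val.toLinearMap)
        fun x => x.2
    haveI : FiniteDimensional K (E'.restrictScalars K) := hE4
    refine FiniteDimensional.of_injective φ fun x x' h => ?_
    have h1 : ε x = ε x' := congrArg Subtype.val h
    exact Subtype.ext (ε.injective h1)
  · refine ⟨ε.symm (algebraMap L F x), ?_, ε.apply_symm_apply _⟩
    show ε (ε.symm (algebraMap L F x)) ∈ E'
    rw [ε.apply_symm_apply]
    exact E'.algebraMap_mem x
  · have h1 : ∀ x ∈ E', s x = x := by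
      intro x hx
      have h2 := hs (ε.symm x) (by
        show ε (ε.symm x) ∈ E'
        rwa [ε.apply_symm_apply])
      have h3 : ε.toAlgHom (ε.symm x) = x := ε.apply_symm_apply x
      rwa [h3] at h2
    refine ⟨fun ζ hζ => h1 ζ ?_, hEA ?_⟩
    · exact (le_sup_right : _ ≤ E') (IntermediateField.subset_adjoin _ _ hζ)
    · rw [SetLike.mem_coe, IntermediateField.mem_fixingSubgroup_iff]
      exact fun x hx => h1 x ((le_sup_left : E ≤ E') hx)

end cov

end Run7.h870.TF
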