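import Pool.Agent.Run7.h870.TE.Cls
import Pool.Agent.X243.Gen.Main
import Pool.Agent.N197.Htj.Cnt
import Pool.Agent.N92.TH.Primes

/-!
# The sieve: residue fields of degree one of a finite extension; the count of split polynomials for which
a product of differences of the roots is not a square
-/

set_option autoImplicit false
set_option linter.all false

open Polynomial NumberField IsDedekindDomain
open scoped Classical

namespace Run7.h870.TF

open Run7.h870.TE (pd pd_map count card_zero)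
open Pool.Agent.X243.Tate Pool.Agent.X243.Sol Pool.Agent.X243.Gen Pool.Agent.N197.Htj
  Pool.Agent.Y160.T3

section cnt

variable {F : Type} [Field F] [Fintype F] {n : ℕ}

/-- the split polynomials for which the product of differences is not a square -/
def Sp (F : Type) [CommRing F] (n : ℕ) (P : Finset {p : Fin n × Fin n // p.1 < p.2}) :
    Set (Fin n → F) :=
  {z | ∃ a : Fin n → F, Function.Injective a ∧ mP z = ∏ i, (X - C (a i)) ∧ ¬ IsSquare (pd P a)}

/-- the coefficients of a product -/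
noncomputable def cf (a : Fin n → F) : Fin n → F := fun j => (∏ i, (X - C (a i))).coeff j

theorem mP_cf (a : Fin n → F) : mP (cf a) = ∏ i, (X - C (a i)) := by
  have hm : (∏ i, (X - C (a i))).Monic := monic_prod_of_monic _ _ fun i _ => monic_X_sub_C (a i)
  have hd : (∏ i, (X - C (a i))).natDegree = n := by
    rw [natDegree_finset_prod_X_sub_C_eq_card, Finset.card_univ, Fintype.card_fin]
  have h := hm.as_sum
  rw [hd] at h
  rw [mP_eq, bF]
  conv_rhs => rw [h]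
  congr 1
  rw [Finset.sum_range]
  rfl

theorem fibre_le (z : Fin n → F) :
    (Finset.univ.filter fun a : Fin n → F => cf a = z).card ≤ n ^ n := by
  have h1 : (Finset.univ.filter fun a : Fin n → F => cf a = z) ⊆
      Fintype.piFinset fun _ : Fin n => (mP z).roots.toFinset := by
    intro a ha
    rw [Finset.mem_filter] at ha
    rw [Fintype.mem_piFinset]
    intro i
    rw [Multiset.mem_toFinset, mem_roots (mP_monic z).ne_zero, ← ha.2, mP_cf, IsRoot.def, eval_prod,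
      Finset.prod_eq_zero_iff]
    exact ⟨i, Finset.mem_univ _, by rw [eval_sub, eval_X, eval_C, sub_self]⟩
  refine (Finset.card_le_card h1).trans ?_
  rw [Fintype.card_piFinset, Finset.prod_const, Finset.card_univ, Fintype.card_fin]
  apply Nat.pow_le_pow_left
  refine (Multiset.toFinset_card_le _).trans ((card_roots' _).trans ?_)
  rw [mP_natDegree]

theorem pd_univ_inj {a : Fin n → F} (h : pd (Finset.univ) a ≠ 0) : Function.Injective a := by
  have key : ∀ i j : Fin n, i < j → a i ≠ a j := by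
    intro i j hij he
    apply h
    exact Finset.prod_eq_zero (Finset.mem_univ ⟨(i, j), hij⟩) (sub_eq_zero.2 he)
  intro i j hij
  by_contra hne
  rcases lt_or_gt_of_ne hne with h1 | h1
  · exact key i j h1 hij
  · exact key j i h1 hij.symm

/-- **the count** -/
theorem Sp_card (h2 : ringChar F ≠ 2) (hq : 16 * n ^ 2 + 16 ≤ Fintype.card F)
    {P : Finset {p : Fin n × Fin n // p.1 < p.2}} (hP : P.Nonempty) :
    (1 / (8 * ((n : ℝ) + 1) ^ n)) * (Fintype.card F : ℝ) ^ n ≤ ((Sp F n P).ncard : ℝ) := by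
  obtain ⟨q, hqd⟩ : ∃ q : ℝ, q = Fintype.card F := ⟨_, rfl⟩
  have hq1 : (16 : ℝ) * n ^ 2 + 16 ≤ q := by rw [hqd]; exact_mod_cast hq
  have hq0 : 0 < q := by nlinarith [sq_nonneg (n : ℝ)]
  have h1 := count (F := F) h2 hq hP 1 one_ne_zero
  have h3 := card_zero (F := F) (n := n) Finset.univ
  rw [← hqd] at h1 ⊢
  have h3' : q * ((Finset.univ.filter fun a : Fin n → F => pd Finset.univ a = 0).card : ℝ) ≤
      (n : ℝ) ^ 2 * q ^ n := by
    rw [hqd]
    exact_mod_cast h3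
  obtain ⟨A, hA⟩ : ∃ A : Finset (Fin n → F), A = Finset.univ.filter fun a : Fin n → F =>
    Function.Injective a ∧ ¬ IsSquare (pd P a) := ⟨_, rfl⟩
  have hA1 : (1 / 8 : ℝ) * q ^ n ≤ (A.card : ℝ) := by
    have h4 : (Finset.univ.filter fun a : Fin n → F => ¬ IsSquare (1 * pd P a)) ⊆
        A ∪ Finset.univ.filter fun a : Fin n → F => pd Finset.univ a = 0 := by
      intro a ha
      rw [Finset.mem_filter, one_mul] at ha
      rw [Finset.mem_union, hA, Finset.mem_filter, Finset.mem_filter]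
      by_cases h5 : pd Finset.univ a = 0
      · exact Or.inr ⟨Finset.mem_univ _, h5⟩
      · exact Or.inl ⟨Finset.mem_univ _, pd_univ_inj h5, ha.2⟩
    have h5 := (Finset.card_le_card h4).trans (Finset.card_union_le _ _)
    have h6 : ((Finset.univ.filter fun a : Fin n → F => ¬ IsSquare (1 * pd P a)).card : ℝ) ≤
        (A.card : ℝ) + ((Finset.univ.filter fun a : Fin n → F => pd Finset.univ a = 0).card : ℝ) := by
      exact_mod_cast h5
    have h7 : ((Finset.univ.filter fun a : Fin n → F => pd Finset.univ a = 0).card : ℝ) ≤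
        (1 / 8) * q ^ n := by
      have h8 : (n : ℝ) ^ 2 * q ^ n ≤ q * ((1 / 8) * q ^ n) := by
        have h9 : (0 : ℝ) ≤ q ^ n := by positivity
        nlinarith [sq_nonneg (n : ℝ)]
      exact le_of_mul_le_mul_left (h3'.trans h8) hq0
    linarith
  -- the fibres
  have hA2 : A.card ≤ n ^ n * (A.image cf).card := by
    refine Finset.card_le_mul_card_image A _ fun z _ => ?_
    refine le_trans (Finset.card_le_card ?_) (fibre_le z)
    intro a ha
    rw [Finset.mem_filter] at ha ⊢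
    exact ⟨Finset.mem_univ _, ha.2⟩
  have hA3 : ((A.image cf : Finset (Fin n → F)) : Set (Fin n → F)) ⊆ Sp F n P := by
    intro z hz
    rw [Finset.mem_coe, Finset.mem_image] at hz
    obtain ⟨a, ha, rfl⟩ := hz
    rw [hA, Finset.mem_filter] at ha
    exact ⟨a, ha.2.1, mP_cf a, ha.2.2⟩
  have hA4 : (A.image cf).card ≤ (Sp F n P).ncard := by
    rw [← Set.ncard_coe_finset]
    exact Set.ncard_le_ncard hA3 (Set.toFinite _)
  have hA5 : (A.card : ℝ) ≤ ((n : ℝ) + 1) ^ n * ((Sp F n P).ncard : ℝ) := by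
    have h6 : (A.card : ℝ) ≤ (n : ℝ) ^ n * ((A.image cf).card : ℝ) := by exact_mod_cast hA2
    have h7 : ((A.image cf).card : ℝ) ≤ ((Sp F n P).ncard : ℝ) := by exact_mod_cast hA4
    have h8 : (n : ℝ) ^ n ≤ ((n : ℝ) + 1) ^ n :=
      pow_le_pow_left₀ (Nat.cast_nonneg n) (by linarith) n
    exact h6.trans (mul_le_mul h8 h7 (Nat.cast_nonneg _) (by positivity))
  have hn0 : (0 : ℝ) < ((n : ℝ) + 1) ^ n := by positivity
  rw [one_div, inv_mul_le_iff₀ (by positivity)]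
  nlinarith

end cnt

section up

variable (K Ω : Type) [Field K] [NumberField K] [Field Ω] [NumberField Ω] [Algebra K Ω]

/-- the primes of `K` below a prime of `Ω` of degree one -/
def Zup (B : ℕ) : Set (Ideal (𝓞 K)) :=
  {p | ∃ w ∈ Zg (𝓞 Ω) B, w.comap (algebraMap (𝓞 K) (𝓞 Ω)) = p ∧
    Function.Surjective ((Ideal.Quotient.mk w).comp (algebraMap (𝓞 K) (𝓞 Ω)))}

theorem surj_of {p : ℕ} (hp : p.Prime) {v : HeightOneSpectrum (𝓞 Ω)}
    (hcard : Nat.card (𝓞 Ω ⧸ v.asIdeal) = p) :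
    Function.Surjective ((Ideal.Quotient.mk v.asIdeal).comp (algebraMap (𝓞 K) (𝓞 Ω))) := by
  -- the image is an additive subgroup of a group of prime order
  obtain ⟨H, hH⟩ : ∃ H : AddSubgroup (𝓞 Ω ⧸ v.asIdeal), H = AddMonoidHom.range
    ((Ideal.Quotient.mk v.asIdeal).comp (algebraMap (𝓞 K) (𝓞 Ω)) : 𝓞 K →+ 𝓞 Ω ⧸ v.asIdeal) :=
    ⟨_, rfl⟩
  haveI : Fact (Nat.card (𝓞 Ω ⧸ v.asIdeal)).Prime := ⟨hcard ▸ hp⟩
  rcases AddSubgroup.eq_bot_or_eq_top_of_prime_card H with h | h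
  · exfalso
    have h1 : (1 : 𝓞 Ω ⧸ v.asIdeal) ∈ H := by
      rw [hH]
      exact ⟨1, map_one ((Ideal.Quotient.mk v.asIdeal).comp (algebraMap (𝓞 K) (𝓞 Ω)))⟩
    rw [h, AddSubgroup.mem_bot] at h1
    haveI := v.isMaximal
    letI := Ideal.Quotient.field v.asIdeal
    exact one_ne_zero h1
  · intro z
    have h1 : z ∈ H := by rw [h]; trivial
    rw [hH] at h1
    obtain ⟨x, hx⟩ := h1
    exact ⟨x, hx⟩

theorem mem_Zup {B p : ℕ} (hp : p.Prime) (hB : B ≤ p) {v : HeightOneSpectrum (𝓞 Ω)}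
    (hcard : Nat.card (𝓞 Ω ⧸ v.asIdeal) = p) (h2 : (2 : 𝓞 Ω) ∉ v.asIdeal) :
    v.asIdeal.comap (algebraMap (𝓞 K) (𝓞 Ω)) ∈ Zup K Ω B := by
  have hfin : Finite (𝓞 Ω ⧸ v.asIdeal) := Nat.finite_of_card_ne_zero (hcard ▸ hp.ne_zero)
  exact ⟨v.asIdeal, ⟨v.isMaximal, hfin, hcard ▸ hB, h2⟩, rfl, surj_of K Ω hp hcard⟩

theorem Zup_norm {p : Ideal (𝓞 K)} {w : Ideal (𝓞 Ω)}
    (hc : w.comap (algebraMap (𝓞 K) (𝓞 Ω)) = p)
    (hs : Function.Surjective ((Ideal.Quotient.mk w).comp (algebraMap (𝓞 K) (𝓞 Ω)))) :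
    Nat.card (𝓞 K ⧸ p) = Nat.card (𝓞 Ω ⧸ w) := by
  have hk : RingHom.ker ((Ideal.Quotient.mk w).comp (algebraMap (𝓞 K) (𝓞 Ω))) = p := by
    rw [← hc]
    ext x
    rw [RingHom.mem_ker, RingHom.comp_apply, Ideal.Quotient.eq_zero_iff_mem, Ideal.mem_comap]
  rw [← hk]
  exact Nat.card_congr (RingHom.quotientKerEquivOfSurjective hs).toEquiv

theorem Zup_inf (B : ℕ) : (Zup K Ω B).Infinite := by
  intro hfin
  obtain ⟨S, hS⟩ : ∃ S : Finset ℕ, S = hfin.toFinset.image (fun p => Nat.card (𝓞 K ⧸ p)) ∪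
    Finset.range (B + 1) := ⟨_, rfl⟩
  obtain ⟨U, hU, hsum⟩ := Pool.Agent.N92.TH.primes_deg_one Ω 2 two_ne_zero
    (∑ p ∈ S, 1 / (p : ℝ) + 1)
  have hsub : U ⊆ S := by
    intro p hp
    obtain ⟨hpp, v, hv, h2⟩ := hU p hp
    have hcard : Nat.card (𝓞 Ω ⧸ v.asIdeal) = p := by
      rw [← hv]
      rfl
    rw [hS, Finset.mem_union, Finset.mem_range]
    by_cases hB : B ≤ p
    · left
      rw [Finset.mem_image]
      refine ⟨_, (hfin.mem_toFinset).2 (mem_Zup K Ω hpp hB hcard h2), ?_⟩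
      rw [Zup_norm K Ω rfl (surj_of K Ω hpp hcard), hcard]
    · right
      omega
  have := Finset.sum_le_sum_of_subset_of_nonneg (f := fun p : ℕ => 1 / (p : ℝ)) hsub
    fun i _ _ => by positivity
  linarith

/-- the sieve -/
theorem dens_up {n : ℕ} {σ : Type} [Fintype σ] {c : ℝ} (hc : 0 < c) (B : ℕ)
    (E : σ → ∀ w : Ideal (𝓞 Ω), Set (Fin n → 𝓞 Ω ⧸ w))
    (hE : ∀ s, ∀ w ∈ Zg (𝓞 Ω) B, c * (Nat.card (𝓞 Ω ⧸ w) : ℝ) ^ n ≤ ((E s w).ncard : ℝ))
    (η : ℝ) (hη : 0 < η) :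
    ∃ M : Ideal (𝓞 K), Finite (𝓞 K ⧸ M) ∧
      (1 - η) * (Nat.card (𝓞 K ⧸ M) : ℝ) ^ (Fintype.card (Fin n)) ≤
      (({x : Fin n → 𝓞 K ⧸ M | ∀ y : Fin n → 𝓞 K, (∀ j, Ideal.Quotient.mk M (y j) = x j) →
        ∀ s, ∃ w ∈ Zg (𝓞 Ω) B,
          (fun j => Ideal.Quotient.mk w (algebraMap (𝓞 K) (𝓞 Ω) (y j))) ∈ E s w}).ncard : ℝ) := by
  obtain ⟨M, hM, h⟩ := densityU (R := 𝓞 K) (Fin n) σ (Zup K Ω B) (Zup_inf K Ω B) (fun p hp => by
      obtain ⟨w, hw, rfl, -⟩ := hp
      haveI := hw.1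
      haveI := hw.1.isPrime
      haveI : Algebra.IsIntegral (𝓞 K) (𝓞 Ω) := inferInstance
      exact Ideal.isMaximal_comap_of_isIntegral_of_isMaximal w) (fun p hp => by
      obtain ⟨w, hw, hc, hs⟩ := hp
      have h1 := Zup_norm K Ω hc hs
      haveI := hw.2.1
      exact Nat.finite_of_card_ne_zero (h1 ▸ Nat.card_pos.ne')) hc η hη
  refine ⟨M, hM, (h (fun s p => {x | ∃ w ∈ Zg (𝓞 Ω) B,
    ∃ hle : p ≤ w.comap (algebraMap (𝓞 K) (𝓞 Ω)),
      (fun j => Ideal.quotientMap w (algebraMap (𝓞 K) (𝓞 Ω)) hle (x j)) ∈ E s w}) ?_).trans ?_⟩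
  · intro s p hp
    obtain ⟨w, hw, hc, hs⟩ := hp
    rw [Zup_norm K Ω hc hs, Fintype.card_fin]
    refine (hE s w hw).trans ?_
    have hle : p ≤ w.comap (algebraMap (𝓞 K) (𝓞 Ω)) := hc.ge
    have hinj : Function.Injective (Ideal.quotientMap w (algebraMap (𝓞 K) (𝓞 Ω)) hle) :=
      Ideal.quotientMap_injective' hc.le
    have hsur : Function.Surjective (Ideal.quotientMap w (algebraMap (𝓞 K) (𝓞 Ω)) hle) := by
      intro z
      obtain ⟨x, hx⟩ := hs z
      exact ⟨Ideal.Quotient.mk p x, by rw [Ideal.quotientMap_mk]; exact hx⟩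
    haveI := hw.2.1
    haveI : Finite (𝓞 K ⧸ p) := Finite.of_injective _ hinj
    refine Nat.cast_le.2 ?_
    have hsub : E s w ⊆ (fun x : Fin n → 𝓞 K ⧸ p =>
        fun j => Ideal.quotientMap w (algebraMap (𝓞 K) (𝓞 Ω)) hle (x j)) ''
        {x | ∃ w ∈ Zg (𝓞 Ω) B, ∃ hle : p ≤ w.comap (algebraMap (𝓞 K) (𝓞 Ω)),
          (fun j => Ideal.quotientMap w (algebraMap (𝓞 K) (𝓞 Ω)) hle (x j)) ∈ E s w} := by
      intro z hz
      choose x hx using fun j => hsur (z j)
      have h1 : (fun j => Ideal.quotientMap w (algebraMap (𝓞 K) (𝓞 Ω)) hle (x j)) = z :=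
        funext hx
      exact ⟨x, ⟨w, hw, hle, by rw [h1]; exact hz⟩, h1⟩
    exact (Set.ncard_le_ncard hsub (Set.toFinite _)).trans (Set.ncard_image_le (Set.toFinite _))
  · refine Nat.cast_le.2 (Set.ncard_le_ncard ?_ (Set.toFinite _))
    intro x hx y hy s
    obtain ⟨p, -, h1⟩ := hx s
    obtain ⟨w, hw, hle, h2⟩ := h1 y hy
    exact ⟨w, hw, h2⟩

end up

end Run7.h870.TF
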