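import Pool.Agent.Run7.h870.TF.Gal
import Pool.Agent.Run7.h870.TF.Sie

/-!
# The regular polynomials over a finite extension, and their density
-/

set_option autoImplicit false
set_option linter.all false

open Polynomial NumberField IsDedekindDomain
open scoped Classical

namespace Run7.h870.TF

open Run7.h870.TE (pd pd_map count card_zero)
open Pool.Agent.X243.Tate Pool.Agent.X243.Sol Pool.Agent.X243.Gen Pool.Agent.N197.Htj
  Pool.Agent.Y160.T3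

/-- the events -/
def Evt (n : ℕ) (F : Type) [CommRing F] :
    Fin 3 ⊕ {P : Finset {p : Fin n × Fin n // p.1 < p.2} // P.Nonempty} → Set (Fin n → F)
  | Sum.inl t => Mv F n t
  | Sum.inr P => Sp F n P.1

/-- regular polynomials: all events happen for residue fields of `Ω` -/
def Reg (K Ω : Type) [Field K] [NumberField K] [Field Ω] [NumberField Ω] [Algebra K Ω] {n : ℕ}
    (y : Fin n → 𝓞 K) : Prop :=
  ∀ s, ∃ w ∈ Zg (𝓞 Ω) (16 * n ^ 2 + 16),
    (fun j => Ideal.Quotient.mk w (algebraMap (𝓞 K) (𝓞 Ω) (y j))) ∈ Evt n (𝓞 Ω ⧸ w) s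

theorem dens_reg (K Ω : Type) [Field K] [NumberField K] [Field Ω] [NumberField Ω] [Algebra K Ω]
    {n : ℕ} (hn : 3 ≤ n) (η : ℝ) (hη : 0 < η) :
    ∃ M : Ideal (𝓞 K), Finite (𝓞 K ⧸ M) ∧
      (1 - η) * (Nat.card (𝓞 K ⧸ M) : ℝ) ^ (Fintype.card (Fin n)) ≤
      (({x : Fin n → 𝓞 K ⧸ M | ∀ y : Fin n → 𝓞 K, (∀ j, Ideal.Quotient.mk M (y j) = x j) →
        Reg K Ω y}).ncard : ℝ) := by
  have hD : 0 < DD n := by
    have := D3_pos n
    unfold DD
    have h3 : 0 < 4 * n := by omega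
    positivity
  have hD' : (0 : ℝ) < ((DD n : ℕ) : ℝ) := by exact_mod_cast hD
  obtain ⟨c, hc⟩ : ∃ c : ℝ, c = min (1 / ((DD n : ℕ) : ℝ)) (1 / (8 * ((n : ℝ) + 1) ^ n)) := ⟨_, rfl⟩
  have hc0 : 0 < c := hc ▸ lt_min (by positivity) (by positivity)
  refine dens_up K Ω (c := c) hc0 (16 * n ^ 2 + 16) (fun s w => Evt n (𝓞 Ω ⧸ w) s) ?_ η hη
  intro s w hw
  haveI := hw.1
  haveI : w.IsPrime := hw.1.isPrime
  letI : Field (𝓞 Ω ⧸ w) := Ideal.Quotient.field w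
  haveI : Finite (𝓞 Ω ⧸ w) := hw.2.1
  letI : Fintype (𝓞 Ω ⧸ w) := Fintype.ofFinite _
  have hpow : (0 : ℝ) ≤ (Nat.card (𝓞 Ω ⧸ w) : ℝ) ^ n := by positivity
  rcases s with t | P
  · refine (mul_le_mul_of_nonneg_right (hc ▸ min_le_left _ _) hpow).trans ?_
    have h1 := Mv_card (F := 𝓞 Ω ⧸ w) hn (by
      have h2 := hw.2.2.1
      nlinarith) t
    rw [one_div, inv_mul_le_iff₀ hD']
    exact_mod_cast h1
  · refine (mul_le_mul_of_nonneg_right (hc ▸ min_le_right _ _) hpow).trans ?_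
    have hch : ringChar (𝓞 Ω ⧸ w) ≠ 2 := by
      intro h1
      apply hw.2.2.2
      have h3 : ((ringChar (𝓞 Ω ⧸ w) : ℕ) : 𝓞 Ω ⧸ w) = 0 := ringChar.Nat.cast_ringChar
      rw [h1] at h3
      rw [← Ideal.Quotient.eq_zero_iff_mem, map_ofNat]
      exact_mod_cast h3
    have h1 := Sp_card (F := 𝓞 Ω ⧸ w) (n := n) hch (by
      rw [← Nat.card_eq_fintype_card]; exact hw.2.2.1) P.2
    rw [Nat.card_eq_fintype_card]
    exact h1

/-- **regular polynomials** -/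
theorem reg_move {K Ω : Type} [Field K] [NumberField K] [Field Ω] [NumberField Ω] [Algebra K Ω]
    {n : ℕ} (hn : 3 ≤ n) {y : Fin n → 𝓞 K} (hy : Reg K Ω y) (F : Type) [Field F] [Algebra Ω F]
    [IsAlgClosed F] [Algebra.IsAlgebraic Ω F] {α : Fin n → F}
    (hα : ((mP fun j => algebraMap K Ω (algebraMap (𝓞 K) K (y j))).map (algebraMap Ω F)) =
      ∏ i, (X - C (α i))) :
    Function.Injective α ∧ ∀ P : Finset {p : Fin n × Fin n // p.1 < p.2}, P.Nonempty →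
      ∀ δ : F, δ ^ 2 = pd P α → ∃ s : F ≃ₐ[Ω] F, (∀ i, s (α i) = α i) ∧ s δ ≠ δ := by
  have e : (mP fun j => algebraMap K Ω (algebraMap (𝓞 K) K (y j))) =
      (mP fun j => algebraMap (𝓞 K) (𝓞 Ω) (y j)).map (algebraMap (𝓞 Ω) Ω) := by
    rw [mP_map]
    rfl
  rw [e] at hα
  have hFF : FF n ((mP fun j => algebraMap (𝓞 K) (𝓞 Ω) (y j)).map (algebraMap (𝓞 Ω) Ω)) := by
    refine evG (B := 16 * n ^ 2 + 16) hn (mP_natDegree_le _) fun t => ?_
    obtain ⟨w, hw, h1⟩ := hy (Sum.inl t)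
    refine ⟨w, hw, _, h1, ?_⟩
    rw [mP_map]
    rfl
  refine ⟨?_, fun P hP δ hδ => ?_⟩
  · have h1 := (hFF.2.1).map (f := algebraMap Ω F)
    rw [hα] at h1
    exact separable_prod_X_sub_C_iff.1 h1
  · obtain ⟨w, hw, a, ha, hfa, hPa⟩ := hy (Sum.inr ⟨P, hP⟩)
    haveI := hw.1
    haveI := hw.2.1
    refine move w hFF.2.2 F hα ha ?_ hPa hδ
    rw [mP_map]
    exact hfa

end Run7.h870.TF
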