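import Pool.Agent.Run7.h870.TE.Cls
import Pool.Agent.X243.Gen.Main
import Pool.Agent.N197.Htj.Cnt
import Pool.Agent.N197.Htj.Ext

/-!
# Polynomials with full symmetric Galois group: no product of differences of the roots becomes a square
in the splitting field, from one residue field
-/

set_option autoImplicit false
set_option linter.all false

open Polynomial IsLocalRing
open scoped Classical

namespace Run7.h870.TF

open Run7.h870.TE (pd pd_map)
open Pool.Agent.X243.Tate Pool.Agent.X243.Sol Pool.Agent.X243.Gen Pool.Agent.N197.Htj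

variable {R k : Type} [CommRing R] [IsDomain R] [IsIntegrallyClosed R] [IsNoetherianRing R]
  [Field k] [Algebra R k] [IsFractionRing R k]

theorem aeval_prod {k E : Type} [Field k] [Field E] [Algebra k E] {n : ℕ} {f : k[X]}
    {α : Fin n → E} (h : f.map (algebraMap k E) = ∏ i, (X - C (α i))) (x : E) :
    aeval x f = 0 ↔ ∃ i, α i = x := by
  rw [← eval_map_algebraMap, h, eval_prod, Finset.prod_eq_zero_iff]
  constructor
  · rintro ⟨i, -, hi⟩
    rw [eval_sub, eval_X, eval_C, sub_eq_zero] at hi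
    exact ⟨i, hi.symm⟩
  · rintro ⟨i, rfl⟩
    exact ⟨i, Finset.mem_univ _, by rw [eval_sub, eval_X, eval_C, sub_self]⟩

/-- the Galois group permutes the roots arbitrarily -/
theorem exists_perm {k E : Type} [Field k] [Field E] [Algebra k E] [FiniteDimensional k E]
    [IsGalois k E] {n : ℕ} {f : k[X]} (hf : FullG f) {α : Fin n → E} (hα : Function.Injective α)
    (h : f.map (algebraMap k E) = ∏ i, (X - C (α i))) (π : Equiv.Perm (Fin n)) :
    ∃ g : E ≃ₐ[k] E, ∀ i, g (α i) = α (π i) := by
  have hspl : (f.map (algebraMap k E)).Splits := by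
    rw [h]
    exact Splits.prod fun i _ => Splits.X_sub_C _
  have hf0 : f ≠ 0 := by
    rintro rfl
    rw [Polynomial.map_zero] at h
    exact (monic_prod_of_monic _ _ fun i _ => monic_X_sub_C (α i)).ne_zero h.symm
  let e : Fin n ≃ f.rootSet E := Equiv.ofBijective (fun i => ⟨α i, by
    rw [mem_rootSet]
    exact ⟨hf0, (aeval_prod h _).2 ⟨i, rfl⟩⟩⟩) ⟨fun i j hij => hα (congrArg Subtype.val hij),
      fun z => by
        obtain ⟨i, hi⟩ := (aeval_prod h _).1 ((mem_rootSet.1 z.2).2)
        exact ⟨i, Subtype.ext hi⟩⟩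
  obtain ⟨g, hg⟩ := hf E hspl ((e.symm.trans π).trans e)
  refine ⟨g, fun i => ?_⟩
  have h1 : ((MulAction.toPermHom (E ≃ₐ[k] E) (f.rootSet E) g (e i) : f.rootSet E) : E) =
      g (α i) := rfl
  rw [← h1, hg]
  show ((e (π (e.symm (e i))) : f.rootSet E) : E) = _
  rw [Equiv.symm_apply_apply]
  rfl

theorem move_fin (k) [Field k] [Algebra R k] [IsFractionRing R k] (m : Ideal R) [m.IsMaximal]
    [Finite (R ⧸ m)] {n : ℕ} {y : Fin n → R}
    (hfull : FullG ((mP y).map (algebraMap R k))) (E : Type) [Field E] [Algebra k E]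
    [FiniteDimensional k E] [IsGalois k E] {α : Fin n → E}
    (hα : ((mP y).map (algebraMap R k)).map (algebraMap k E) = ∏ i, (X - C (α i)))
    {a : Fin n → R ⧸ m} (ha : Function.Injective a)
    (hfa : (mP y).map (Ideal.Quotient.mk m) = ∏ i, (X - C (a i)))
    {P : Finset {p : Fin n × Fin n // p.1 < p.2}} (hP : ¬ IsSquare (pd P a)) {δ : E}
    (hδ : δ ^ 2 = pd P α) : ∃ s : E ≃ₐ[k] E, (∀ i, s (α i) = α i) ∧ s δ ≠ δ := by
  haveI : m.IsMaximal := inferInstance
  letI : Field (R ⧸ m) := Ideal.Quotient.field m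
  by_contra hcon
  push Not at hcon
  letI : Algebra R E := ((algebraMap k E).comp (algebraMap R k)).toAlgebra
  haveI : IsScalarTower R k E := IsScalarTower.of_algebraMap_eq fun _ => rfl
  have hsepm : ((mP y).map (Ideal.Quotient.mk m)).Separable := by
    rw [hfa]
    exact separable_prod_X_sub_C_iff.2 ha
  have hmon : (mP y).Monic := mP_monic y
  have hd : ((mP y).map (Ideal.Quotient.mk m)).natDegree = n := by
    rw [hmon.natDegree_map, mP_natDegree]
  obtain ⟨B, ρ, j, σ, hρ, hj, hσ, -, hσr, hfac⟩ := frob_roots m k (mP_natDegree_le y) hd hsepm E (by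
    rw [hα]
    exact Splits.prod fun i _ => Splits.X_sub_C _)
  have hinj := inj_of j hsepm hfac
  -- the roots
  have hrt : ∀ i, aeval (α i) ((mP y).map (algebraMap R k)) = 0 := fun i =>
    (aeval_prod hα _).2 ⟨i, rfl⟩
  have hf0 : (mP y).map (algebraMap R k) ≠ 0 := (hmon.map _).ne_zero
  have hrs : ∀ i, α i ∈ ((mP y).map (algebraMap R k)).rootSet E := fun i =>
    mem_rootSet.2 ⟨hf0, hrt i⟩
  have hlc : ((mP y).map (Ideal.Quotient.mk m)).leadingCoeff = 1 := (hmon.map _).leadingCoeff
  rw [hlc, map_one, C_1, one_mul, hfa, Polynomial.map_prod] at hfac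
  simp only [Polynomial.map_sub, map_X, map_C] at hfac
  -- the matching
  have hmatch : ∀ i, ∃ i', j (a i') = red B (α i) := by
    intro i
    have h1 : eval (red B (α i)) (∏ i, (X - C (j (a i)))) = 0 := by
      rw [hfac, eval_prod, Finset.prod_eq_zero_iff]
      exact ⟨⟨α i, hrs i⟩, Finset.mem_univ _, by rw [eval_sub, eval_X, eval_C, sub_self]⟩
    rw [eval_prod, Finset.prod_eq_zero_iff] at h1
    obtain ⟨i', -, h1⟩ := h1
    rw [eval_sub, eval_X, eval_C, sub_eq_zero] at h1
    exact ⟨i', h1.symm⟩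
  choose π hπ using hmatch
  have hπs : Function.Surjective π := by
    intro i'
    have h1 : eval (j (a i')) (∏ i, (X - C (j (a i)))) = 0 := by
      rw [eval_prod, Finset.prod_eq_zero_iff]
      exact ⟨i', Finset.mem_univ _, by rw [eval_sub, eval_X, eval_C, sub_self]⟩
    rw [hfac, eval_prod, Finset.prod_eq_zero_iff] at h1
    obtain ⟨θ, -, h1⟩ := h1
    rw [eval_sub, eval_X, eval_C, sub_eq_zero] at h1
    obtain ⟨i, hi⟩ := (aeval_prod hα _).1 (mem_rootSet.1 θ.2).2
    refine ⟨i, ha (j.injective ?_)⟩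
    rw [hπ, hi, h1]
  have hπb : Function.Bijective π := Finite.surjective_iff_bijective.1 hπs
  let pe : Equiv.Perm (Fin n) := Equiv.ofBijective π hπb
  have hαinj : Function.Injective α := by
    intro i i' h
    apply hπb.1
    apply ha
    apply j.injective
    rw [hπ, hπ, h]
  obtain ⟨g, hg⟩ := exists_perm hfull hαinj hα pe.symm
  -- the Frobenius element fixes the roots
  have hq : ∀ c : R ⧸ m, c ^ Nat.card (R ⧸ m) = c := by
    intro c
    letI := Fintype.ofFinite (R ⧸ m)
    rw [Nat.card_eq_fintype_card, FiniteField.pow_card]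
  have hσα : ∀ i, σ (α i) = α i := by
    intro i
    obtain ⟨h1, h2, h3⟩ := hσr (α i) (hrt i)
    rw [← hπ i, ← map_pow, hq, hπ i] at h3
    have h4 : aeval (σ (α i)) ((mP y).map (algebraMap R k)) = 0 := by
      have h6 := aeval_algHom_apply σ.toAlgHom (α i) ((mP y).map (algebraMap R k))
      rw [hrt, map_zero] at h6
      exact h6
    have h5 := hinj (a₁ := ⟨σ (α i), mem_rootSet.2 ⟨hf0, h4⟩⟩) (a₂ := ⟨α i, hrs i⟩) h3
    exact congrArg Subtype.val h5
  have hfix := hcon (g⁻¹ * σ * g) (fun i => by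
    show g⁻¹ (σ (g (α i))) = α i
    rw [hg, hσα, ← hg i]
    exact g.symm_apply_apply _)
  have hfix2 : σ (g δ) = g δ := by
    have h1 : g⁻¹ (σ (g δ)) = δ := hfix
    have h2 : g (g⁻¹ (σ (g δ))) = σ (g δ) := g.apply_symm_apply _
    rw [← h2, h1]
  -- integrality
  have hαint : ∀ i, IsIntegral R (α i) := by
    intro i
    refine ⟨mP y, hmon, ?_⟩
    have h1 := hrt i
    rw [aeval_map_algebraMap] at h1
    exact h1
  have hgint : IsIntegral R (g δ) := by
    apply IsIntegral.of_pow two_pos
    rw [← map_pow, hδ]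
    show IsIntegral R ((g : E →+* E) (pd P α))
    rw [pd_map]
    unfold pd
    refine IsIntegral.prod _ fun p _ => IsIntegral.sub ?_ ?_
    · show IsIntegral R (g (α p.1.1))
      rw [hg]
      exact hαint _
    · show IsIntegral R (g (α p.1.2))
      rw [hg]
      exact hαint _
  have h1m : (1 : R) ∉ m := fun h => Ideal.IsPrime.ne_top inferInstance ((Ideal.eq_top_iff_one m).2 h)
  obtain ⟨hgB, -, hgr⟩ := hσ 1 h1m (g δ) (by rwa [map_one, one_mul])
  rw [hfix2] at hgr
  obtain ⟨b, hb⟩ := fixed_mem j hgr.symm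
  -- the square
  have hαB : ∀ i, α i ∈ B := fun i => (hσr (α i) (hrt i)).1
  let A : Fin n → B := fun i => ⟨α (pe.symm i), hαB _⟩
  have hA1 : B.subtype (pd P A) = (g δ) ^ 2 := by
    rw [pd_map, ← map_pow, hδ]
    show _ = (g : E →+* E) (pd P α)
    rw [pd_map]
    congr 1
    funext i
    exact (hg i).symm
  have hA2 : residue B (pd P A) = j (pd P a) := by
    rw [pd_map, pd_map]
    congr 1
    funext i
    have h1 := hπ (pe.symm i)
    have h2 : π (pe.symm i) = i := pe.apply_symm_apply i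
    rw [h2] at h1
    rw [h1]
    exact (red_coe (A i)).symm
  have hA3 : residue B (pd P A) = red B (g δ) ^ 2 := by
    rw [← red_pow hgB, ← hA1]
    exact (red_coe (pd P A)).symm
  apply hP
  refine ⟨b, j.injective ?_⟩
  rw [← hA2, hA3, ← hb, map_mul, sq]

/-- **The Galois group fixing the roots moves the square roots of products of differences.** -/
theorem move [CharZero k] (m : Ideal R) [m.IsMaximal] [Finite (R ⧸ m)] {n : ℕ} {y : Fin n → R}
    (hfull : FullG ((mP y).map (algebraMap R k))) (F : Type) [Field F] [Algebra k F]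
    [IsAlgClosed F] [Algebra.IsAlgebraic k F] {α : Fin n → F}
    (hα : ((mP y).map (algebraMap R k)).map (algebraMap k F) = ∏ i, (X - C (α i)))
    {a : Fin n → R ⧸ m} (ha : Function.Injective a)
    (hfa : (mP y).map (Ideal.Quotient.mk m) = ∏ i, (X - C (a i)))
    {P : Finset {p : Fin n × Fin n // p.1 < p.2}} (hP : ¬ IsSquare (pd P a)) {δ : F}
    (hδ : δ ^ 2 = pd P α) : ∃ s : F ≃ₐ[k] F, (∀ i, s (α i) = α i) ∧ s δ ≠ δ := by
  have hint : IsIntegral k δ := Algebra.IsIntegral.isIntegral δ
  have hf0 : (mP y).map (algebraMap R k) ≠ 0 := ((mP_monic y).map _).ne_zero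
  obtain ⟨E, _, _, _, _, hfd, hgal, hspl⟩ := exists_gal k F
    (P := minpoly k δ * (mP y).map (algebraMap R k)) fun x _ => Algebra.IsSeparable.isSeparable k x
  have hP0 : minpoly k δ * (mP y).map (algebraMap R k) ≠ 0 := mul_ne_zero (minpoly.ne_zero hint) hf0
  have hrα : ∀ i, aeval (α i) (minpoly k δ * (mP y).map (algebraMap R k)) = 0 := by
    intro i
    rw [map_mul, (aeval_prod hα _).2 ⟨i, rfl⟩, mul_zero]
  have hrδ : aeval δ (minpoly k δ * (mP y).map (algebraMap R k)) = 0 := by
    rw [map_mul, minpoly.aeval, zero_mul]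
  choose α' hα' hα'' using fun i => root_mem hP0 hspl (hrα i)
  obtain ⟨δ', -, hδ'⟩ := root_mem hP0 hspl hrδ
  have hαE : ((mP y).map (algebraMap R k)).map (algebraMap k E) = ∏ i, (X - C (α' i)) := by
    apply Polynomial.map_injective (algebraMap E F) (algebraMap E F).injective
    rw [Polynomial.map_map, ← IsScalarTower.algebraMap_eq, hα, Polynomial.map_prod]
    refine Finset.prod_congr rfl fun i _ => ?_
    rw [Polynomial.map_sub, map_X, map_C, hα'']
  have hδE : δ' ^ 2 = pd P α' := by
    apply (algebraMap E F).injective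
    rw [map_pow, hδ', hδ, pd_map]
    congr 1
    funext i
    exact (hα'' i).symm
  obtain ⟨s, hs, hsδ⟩ := move_fin k m hfull E hαE ha hfa hP hδE
  haveI : IsAlgClosure k F := ⟨inferInstance, inferInstance⟩
  haveI : Normal k F := IsAlgClosure.normal k F
  refine ⟨s.liftNormal F, fun i => ?_, fun h => hsδ ?_⟩
  · rw [← hα'', AlgEquiv.liftNormal_commutes, hs]
  · apply (algebraMap E F).injective
    rw [← AlgEquiv.liftNormal_commutes, hδ', h]

end Run7.h870.TF
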